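import Pool.Agent.Lib.EDN.GMain

/-!
# The limit shape in high dimension: farthest points and directions of curvature near the axes

Edge times `τ ≥ 0` with finite mean whose distribution function satisfies `a t ≤ F(t) ≤ b t` for small `t > 0`
(for example the Eden model, exponential times).  In high dimension the coordinate directions have, up to the
factor `a / b`, the least time constant, and all points of the shape which are farthest from the origin, as well as
directions of curvature for every coordinate direction, lie close to the axes.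
The lower bound comes from the generating function of walks, the upper bound from the growth in a hyperplane
(absence of memory and the edge isoperimetric inequality).
-/

set_option autoImplicit false

namespace Pool.Agent.Results.MP_a83deb_pr.AxesInHighDimension

open MeasureTheory Filter Topology Pool.Agent.Lib.MP_a83deb_pr

/-- Farthest points and directions of curvature near the coordinate axes in high dimension, for edge times whose
distribution function is between `a t` and `b t` near `0`. -/
theorem result (ν : Measure ℝ) [IsProbabilityMeasure ν] (hν : ∀ᵐ t ∂ν, 0 ≤ t)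
    (hint : Integrable (fun t : ℝ => t) ν) (a b : ℝ) (ha : 0 < a) (hab : a ≤ b)
    (hF : ∀ᶠ t in 𝓝[>] (0 : ℝ),
      a * t ≤ (ν (Set.Iic t)).toReal ∧ (ν (Set.Iic t)).toReal ≤ b * t) :
    (∀ d : ℕ, ∃ μ, TimeConstant d ν μ) ∧
    ∀ δ : ℝ, 0 < δ → ∃ d₀ : ℕ, ∀ d, d₀ ≤ d → ∀ μ, TimeConstant d ν μ →
      (∀ x (j : Fin d), (a / b - δ) * μ (EuclideanSpace.single j 1) * ‖x‖ ≤ μ x) ∧
      (∀ z, μ z ≤ 1 → (∀ x, μ x ≤ 1 → ‖x‖ ≤ ‖z‖) → ∃ i, (a / b - δ) * ‖z‖ ≤ |z i|) ∧
      ∀ j : Fin d, ∃ u, Curv μ u ∧ a / b - δ ≤ u j := by
  have h : Dist ν 0 := ⟨le_rfl, hν, hint⟩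
  exact ⟨fun d => h.exists_timeConstant, fun δ hδ => Pool.Agent.Lib.EDN.gmain h ha hab hF hδ⟩

end Pool.Agent.Results.MP_a83deb_pr.AxesInHighDimension
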