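import Pool.Agent.Lib.FPC.LowMu3
import Pool.Agent.Lib.FPC.UpMu4
import Pool.Agent.Lib.FPC.Glob
import Pool.Agent.Lib.FPC.Dst
import Pool.Agent.Lib.MP_a83deb_pr.Cap2

/-!
# Planar first-passage percolation: the limit shape up to second order, and directions of curvature

Edge times `τ ≥ 1` with finite mean, `q = P(τ ≥ 3) ∈ (0, 1)`, `A = E(τ - 1)`, `m = E(τ - 1; τ < 3)`,
`ε = 7 q² + 11 q A + 2 m`.  The time constant lies between an explicit norm `K_q` and `(1 + ε) K_q`; there is a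
direction of curvature near each of the explicit directions `(1, q v)`, `|v| < 1`, their number is large, and all
points of the shape which are farthest from the origin lie near the coordinate axes.
The lower bound comes from a stationary discrete TASEP, the upper bound from its exit points.
-/

set_option autoImplicit false

namespace Pool.Agent.Results.MP_a83deb_pr.LocatedCurvature

open MeasureTheory Pool.Agent.Lib.MP_a83deb_pr Pool.Agent.Lib.FPC

/-- The limit shape up to second order and directions of curvature at explicit places. -/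
theorem result (ν : Measure ℝ) [IsProbabilityMeasure ν] (h1 : ∀ᵐ t ∂ν, 1 ≤ t)
    (hint : Integrable (fun t : ℝ => t) ν) (q A m ε : ℝ) (hq : q = (ν (Set.Ici 3)).toReal)
    (hq0 : 0 < q) (hq1 : q < 1) (hA : A = ∫ t, (t - 1) ∂ν) (hm : m = ∫ t in Set.Iio 3, (t - 1) ∂ν)
    (hε : ε = 7 * q ^ 2 + 11 * q * A + 2 * m) :
    (∃ μ, TimeConstant 2 ν μ) ∧ ∀ μ, TimeConstant 2 ν μ →
      (∀ x, Kq q x ≤ μ x ∧ μ x ≤ (1 + ε) * Kq q x) ∧
      (∀ v : ℝ, |v| < 1 → 8 * ε ≤ q * (1 - |v|) ^ 2 →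
        ∃ u, Curv μ u ∧ 0 < u 0 ∧ |u 1 - q * v * u 0| ≤ Real.sqrt (8 * ε * q) * u 0) ∧
      (∀ N : ℕ, 81 * ε * N ^ 2 ≤ q → (N : ℕ∞) ≤ {u | Curv μ u}.encard) ∧
      (8 * ε ≤ q → ∀ z, μ z ≤ 1 → (∀ x, μ x ≤ 1 → ‖x‖ ≤ ‖z‖) →
        min |z 0| |z 1| ≤ Real.sqrt (3 * ε * q) * max |z 0| |z 1|) := by
  have hL : Law4 ν q A m := by
    refine ⟨h1, hint, hq.symm, ?_, hm.symm⟩
    rw [hA, integral_sub hint (integrable_const _)]
    simp
  have hD : Dist ν 1 := hL.lawL.dist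
  refine ⟨hD.exists_timeConstant, fun μ hμ => ?_⟩
  have hM : IsTC ν μ := hμ.isTC hD
  have hN := IsTC.nm hD hM one_pos
  have hlow := fun (x : EuclideanSpace ℝ (Fin 2)) (hx : 0 < x 0) (hx1 : |x 1| ≤ q * x 0) =>
    lowMu3 hL.lawL hq0 hq1 hM x hx hx1
  have hup : ∀ v : ℝ, |v| ≤ 1 → μ !₂[1, q * v] ≤ 1 + q * (1 + v ^ 2) / 2 + ε := by
    intro v hv
    have h2 := upMu4 hL hq0 hq1 hM v hv
    rw [hε]
    linarith
  have hA2 := hL.two_q_le
  have hm0 := hL.m_nonneg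
  have hA0 : 0 ≤ A := by linarith
  have hε0 : 7 * q ^ 2 ≤ ε := by
    rw [hε]
    have := mul_nonneg hq0.le hA0
    linarith
  have hεn : 0 ≤ ε := le_trans (by positivity) hε0
  have hq2 : 0 < q ^ 2 := by positivity
  have hCq : ε / q ^ 2 * q ^ 2 = ε := div_mul_cancel₀ _ hq2.ne'
  have hup' : ∀ v : ℝ, |v| ≤ 1 → μ !₂[1, q * v] ≤ 1 + q * (1 + v ^ 2) / 2 + ε / q ^ 2 * q ^ 2 := by
    intro v hv
    rw [hCq]
    exact hup v hv
  refine ⟨fun x => glob hq0 hq1 hεn hN (fun σ π x => IsTC.sp hD hM σ π x) hlow hup x,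
    fun v hv hs => ?_, fun N hN' => ?_, fun h8 z hz hfar => ?_⟩
  · have hvb : (1 - |v|) ^ 2 ≤ 1 := by
      have h4 := abs_nonneg v
      nlinarith
    have hq8 : q ≤ 1 / 8 := by
      have h5 : 8 * (7 * q ^ 2) ≤ q * 1 := by
        calc 8 * (7 * q ^ 2) ≤ 8 * ε := by linarith
          _ ≤ q * (1 - |v|) ^ 2 := hs
          _ ≤ q * 1 := mul_le_mul_of_nonneg_left hvb hq0.le
      nlinarith
    have h6 : 8 * (ε / q ^ 2) * q ≤ (1 - |v|) ^ 2 := by
      have h7 : 8 * (ε / q ^ 2) * q = 8 * ε / q := by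
        field_simp
      rw [h7, div_le_iff₀ hq0]
      linarith
    obtain ⟨u, hu, hu0, hu1⟩ := hN.cap2 hq0 hq8 (div_nonneg hεn hq2.le) hv h6 hlow (hup' v hv.le)
    refine ⟨u, hu, hu0, ?_⟩
    have h8 : (u 1 - q * v * u 0) ^ 2 ≤ (Real.sqrt (8 * ε * q) * u 0) ^ 2 := by
      rw [mul_pow, Real.sq_sqrt (by positivity)]
      refine hu1.trans (le_of_eq ?_)
      have h9 : 8 * (ε / q ^ 2) * q ^ 3 = 8 * (ε / q ^ 2 * q ^ 2) * q := by ring
      rw [h9, hCq]
    exact abs_le_of_sq_le_sq h8 (by positivity)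
  · refine hN.count hq0 ?_ hlow hup' N ?_
    · rw [one_le_div hq2]
      linarith
    · have h7 : 81 * (ε / q ^ 2) * q * (N : ℝ) ^ 2 = 81 * ε * (N : ℝ) ^ 2 / q := by
        field_simp
      rw [h7, div_le_one hq0]
      exact hN'
  · have hq56 : q ≤ 1 / 56 := by nlinarith
    refine dst hq0 hq56 hεn h8 hN (fun σ π x => IsTC.sp hD hM σ π x) hlow ?_ hz hfar
    have h2 := hup 0 (by simp)
    have h3 : (!₂[(1 : ℝ), q * 0] : EuclideanSpace ℝ (Fin 2)) = EuclideanSpace.single 0 1 := by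
      ext i
      fin_cases i <;> simp
    rw [h3] at h2
    linarith

end Pool.Agent.Results.MP_a83deb_pr.LocatedCurvature
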