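import Pool.Agent.Lib.EDP.MainP
import Pool.Agent.Lib.EDP.MainL

/-!
# Exponentially many directions of curvature in high dimension

Edge times `τ ≥ l ≥ 0` with finite mean whose distribution function satisfies `a t ^ α ≤ F(l + t) ≤ b t ^ α` for small
`t > 0`, for some exponent `α > 0` (`l = 0`, `α = 1`: for example the Eden model, exponential times).  For large `d` the
limit shape in dimension `d` has at least `exp (c d)` directions of curvature, where `c > 0` depends only on `α` and on
a lower bound for `a / b`.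

The shape is the closed convex hull of the boundary points in the directions of curvature.  In the direction of each
of the `2 ^ d` sign vectors it reaches at least as far as an oriented greedy path shows, while the generating function
of walks bounds the exponential moments of `⟨z, σ⟩`, `σ` a random sign vector, for every point `z` of the shape.
-/

set_option autoImplicit false

namespace Pool.Agent.Results.MP_a83deb_pr.ManyDirections

open MeasureTheory Filter Topology Pool.Agent.Lib.MP_a83deb_pr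

/-- The number of directions of curvature grows exponentially with the dimension. -/
theorem result (α ρ : ℝ) (hα : 0 < α) (hρ : 0 < ρ) : ∃ c : ℝ, 0 < c ∧
    ∀ (ν : Measure ℝ) [IsProbabilityMeasure ν] (l : ℝ), 0 ≤ l → (∀ᵐ t ∂ν, l ≤ t) →
      Integrable (fun t : ℝ => t) ν → ∀ a b : ℝ, 0 < a → 0 < b → ρ * b ≤ a →
        (∀ᶠ t in 𝓝[>] (0 : ℝ),
          a * t ^ α ≤ (ν (Set.Iic (l + t))).toReal ∧ (ν (Set.Iic (l + t))).toReal ≤ b * t ^ α) →
        ∃ d₀ : ℕ, ∀ d, d₀ ≤ d → (∃ μ, TimeConstant d ν μ) ∧ ∀ μ, TimeConstant d ν μ →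
          ∀ N : ℕ, (N : ℝ) ≤ Real.exp (c * d) → (N : ℕ∞) ≤ {u | Curv μ u}.encard := by
  obtain ⟨c₁, hc₁, H₁⟩ := Pool.Agent.Lib.EDP.mainP hα hρ
  obtain ⟨c₂, hc₂, H₂⟩ := Pool.Agent.Lib.EDP.mainL hα hρ
  refine ⟨min c₁ c₂, lt_min hc₁ hc₂, fun ν _ l hl hν hint a b ha hb hab hF => ?_⟩
  have h : Dist ν l := ⟨hl, hν, hint⟩
  rcases hl.eq_or_lt with rfl | hl0
  · simp only [zero_add] at hF
    obtain ⟨d₀, hd₀⟩ := H₁ ν h a b ha hb hab hF
    refine ⟨d₀, fun d hd => ⟨h.exists_timeConstant, fun μ hμ N hN => hd₀ d hd μ hμ N (hN.trans ?_)⟩⟩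
    exact Real.exp_le_exp.2 (mul_le_mul_of_nonneg_right (min_le_left _ _) (Nat.cast_nonneg _))
  · obtain ⟨d₀, hd₀⟩ := H₂ ν l hl0 h a b ha hb hab hF
    refine ⟨d₀, fun d hd => ⟨h.exists_timeConstant, fun μ hμ N hN => hd₀ d hd μ hμ N (hN.trans ?_)⟩⟩
    exact Real.exp_le_exp.2 (mul_le_mul_of_nonneg_right (min_le_right _ _) (Nat.cast_nonneg _))

end Pool.Agent.Results.MP_a83deb_pr.ManyDirections
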