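import Pool.Agent.Lib.MP_a83deb_pr.High

/-!
# Directions of curvature near the coordinate directions

Edge times with values at least `l > 0` and finite mean.  In every dimension the time constant exists, and for
every coordinate direction `e_j` there is a direction of curvature `u` with `‖u - e_j‖ ≤ 2 (μ(e_j) / l - 1)`, the
direction of a point of the shape which is farthest from the origin.  If `l` is the infimum of the support, then
`μ(e_j)` tends to `l` as the dimension grows, with an explicit bound.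
-/

set_option autoImplicit false

namespace Pool.Agent.Results.MP_a83deb_pr.NearCoordinateAxis

open MeasureTheory Pool.Agent.Lib.MP_a83deb_pr

/-- Directions of curvature near the coordinate directions: an explicit bound in every dimension, and
convergence to the coordinate directions as the dimension tends to infinity. -/
theorem result (ν : Measure ℝ) [IsProbabilityMeasure ν] (l : ℝ) (hl : 0 < l)
    (hν : ∀ᵐ t ∂ν, l ≤ t) (hint : Integrable (fun t : ℝ => t) ν) :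
    (∀ d : ℕ, (∃ μ, TimeConstant d ν μ) ∧ ∀ μ, TimeConstant d ν μ → ∀ j : Fin d,
      (∃ u, Curv μ u ∧ (∀ x, μ x ≤ 1 → ‖x‖ ≤ (μ u)⁻¹) ∧ (∀ i, |u i| ≤ u j) ∧
        ∑ i, |u i| ≤ μ (EuclideanSpace.single j 1) / l ∧
        ‖u - EuclideanSpace.single j 1‖ ≤ 2 * (μ (EuclideanSpace.single j 1) / l - 1)) ∧
      (∀ z, μ z ≤ 1 → (∀ x, μ x ≤ 1 → ‖x‖ ≤ ‖z‖) →
        ∑ i, |z i| ≤ μ (EuclideanSpace.single j 1) / l * ‖z‖) ∧
      μ (EuclideanSpace.single j 1) ≤ ∫ t, t ∂ν ∧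
      (2 ≤ d → ∀ (L : ℕ) (c : ℝ), 1 ≤ L → 0 ≤ c → μ (EuclideanSpace.single j 1) ≤
        (1 + 2 / L) * (c + (∫ t, t ∂ν) * (1 - (ν (Set.Iic c)).toReal ^ (L + 2)) ^ (d - 2)))) ∧
    ((∀ c, l < c → 0 < ν (Set.Iic c)) → ∀ δ : ℝ, 0 < δ → ∃ d₀ : ℕ, ∀ d, d₀ ≤ d →
      ∀ μ, TimeConstant d ν μ → ∀ j : Fin d, ∃ u, Curv μ u ∧ ‖u - EuclideanSpace.single j 1‖ ≤ δ) := by
  have h : Dist ν l := ⟨hl.le, hν, hint⟩
  have key : ∀ (d : ℕ) (μ : EuclideanSpace ℝ (Fin d) → ℝ), TimeConstant d ν μ → ∀ j : Fin d,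
      ∃ u, Curv μ u ∧ (∀ x, μ x ≤ 1 → ‖x‖ ≤ (μ u)⁻¹) ∧ (∀ i, |u i| ≤ u j) ∧
        ∑ i, |u i| ≤ μ (EuclideanSpace.single j 1) / l ∧
        ‖u - EuclideanSpace.single j 1‖ ≤ 2 * (μ (EuclideanSpace.single j 1) / l - 1) := by
    intro d μ hμ j
    have hM : IsTC ν μ := hμ.isTC h
    have hN := (IsTC.nm h hM hl).diamond (fun ε π x => IsTC.sp h hM ε π x) j
    exact hN.local (fun ε π x => IsTC.sp h hM ε π x) j
  refine ⟨fun d => ⟨h.exists_timeConstant, fun μ hμ j => ?_⟩, fun hinf δ hδ => ?_⟩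
  · have hM : IsTC ν μ := hμ.isTC h
    have hN := (IsTC.nm h hM hl).diamond (fun ε π x => IsTC.sp h hM ε π x) j
    refine ⟨key d μ hμ j, fun z hz hfar => hN.far_l1 j hz hfar, ?_, fun hd L c hL hc => ?_⟩
    · have h1 := IsTC.le h hM (EuclideanSpace.single j (1 : ℝ))
      rwa [l1_single, mul_one] at h1
    · exact IsTC.upper h hM hd j hL hc
  · obtain ⟨d₀, hd₀⟩ := high h hl hinf (half_pos hδ)
    refine ⟨d₀, fun d hd μ hμ j => ?_⟩
    obtain ⟨u, hu, -, -, -, hclose⟩ := key d μ hμ j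
    refine ⟨u, hu, hclose.trans ?_⟩
    have h1 := hd₀ d hd μ (hμ.isTC h) j
    have h2 : μ (EuclideanSpace.single j 1) / l ≤ 1 + δ / 2 := by
      rw [div_le_iff₀ hl]
      exact h1
    linarith

end Pool.Agent.Results.MP_a83deb_pr.NearCoordinateAxis
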